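import Pool.Agent.R872.KEC.Chain

open Cardinal Function

universe u

namespace Pool.Agent.Results.MP_cb6149_al.FewAutomorphisms

/-- The value of the word `w ∈ G * F(X)` in the group `K`, where the coefficients are mapped to
`K` by `i : G →* K` and the variables are replaced by the elements `x v` of `K`. -/
def eval {G K X : Type u} [Group G] [Group K] (i : G →* K) (x : X → K) :
    Monoid.Coprod G (FreeGroup X) →* K :=
  Monoid.Coprod.lift i (FreeGroup.lift x)

/-- The assignment `x : X → K` makes the equations `w = 1` for `w ∈ E` and the inequations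
`w ≠ 1` for `w ∈ N` true in `K`, where `i : G →* K` gives the coefficients. -/
def Solves {G K X : Type u} [Group G] [Group K] (i : G →* K)
    (E N : Set (Monoid.Coprod G (FreeGroup X))) (x : X → K) : Prop :=
  (∀ w ∈ E, eval i x w = 1) ∧ ∀ w ∈ N, eval i x w ≠ 1

/-- `G` is `κ`-existentially closed: every system of fewer than `κ` equations and inequations
over `G` (in any set `X` of variables) which is solvable in some group `K` containing `G` is
solvable in `G`. -/
def IsExistentiallyClosed (κ : Cardinal.{u}) (G : Type u) [Group G] : Prop :=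
  ∀ (X : Type u) (E N : Set (Monoid.Coprod G (FreeGroup X))), #E + #N < κ →
    (∃ (K : Type u) (_ : Group K) (i : G →* K), Injective i ∧ ∃ x : X → K, Solves i E N x) →
    ∃ x : X → G, Solves (MonoidHom.id G) E N x

/-- words in `G * F(X)` come from the free group on `G ⊕ X` -/
theorem exists_rep {G X : Type u} [Group G] (w : Monoid.Coprod G (FreeGroup X)) :
    ∃ w' : FreeGroup (G ⊕ X), ∀ (K : Type u) [Group K] (i : G →* K) (x : X → K),
      eval i x w = FreeGroup.lift (Sum.elim i x) w' := by
  let p : FreeGroup (G ⊕ X) →* Monoid.Coprod G (FreeGroup X) :=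
    FreeGroup.lift (Sum.elim Monoid.Coprod.inl (fun v => Monoid.Coprod.inr (FreeGroup.of v)))
  have hp : Surjective p := by
    intro w
    induction w using Monoid.Coprod.induction_on with
    | inl g => exact ⟨FreeGroup.of (Sum.inl g), by simp [p]⟩
    | inr v =>
      refine ⟨FreeGroup.map Sum.inr v, ?_⟩
      have : p.comp (FreeGroup.map Sum.inr) = Monoid.Coprod.inr := by
        ext v
        simp [p]
      exact DFunLike.congr_fun this v
    | mul a b ha hb =>
      obtain ⟨a', rfl⟩ := ha
      obtain ⟨b', rfl⟩ := hb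
      exact ⟨a' * b', map_mul _ _ _⟩
  obtain ⟨w', rfl⟩ := hp w
  refine ⟨w', ?_⟩
  intro K _ i x
  have : (eval i x).comp p = FreeGroup.lift (Sum.elim i x) := by
    ext z
    rcases z with g | v <;> simp [p, eval]
  exact DFunLike.congr_fun this w'

/-- a word involves only finitely many letters -/
theorem exists_support {Z : Type u} (w : FreeGroup Z) :
    ∃ F : Set Z, F.Finite ∧ w ∈ Subgroup.closure (FreeGroup.of '' F) := by
  induction w using FreeGroup.induction_on with
  | C1 => exact ⟨∅, Set.finite_empty, one_mem _⟩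
  | of z =>
    exact ⟨{z}, Set.finite_singleton z, Subgroup.subset_closure ⟨z, rfl, rfl⟩⟩
  | inv_of z _ =>
    exact ⟨{z}, Set.finite_singleton z, inv_mem (Subgroup.subset_closure ⟨z, rfl, rfl⟩)⟩
  | mul a b ha hb =>
    obtain ⟨F, hF, hFa⟩ := ha
    obtain ⟨F', hF', hFb⟩ := hb
    refine ⟨F ∪ F', hF.union hF', mul_mem ?_ ?_⟩
    · exact Subgroup.closure_mono (Set.image_mono Set.subset_union_left) hFa
    · exact Subgroup.closure_mono (Set.image_mono Set.subset_union_right) hFb

open Pool.Agent.R872.KEC in
/-- For every infinite regular cardinal `κ` (including `ℵ₀`) there is a `κ`-existentially closed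
group `G` of cardinality `2 ^ κ > κ` which has exactly `2 ^ κ = |G|` automorphisms; in particular
the number of automorphisms is smaller than `2 ^ |G|`. -/
theorem result (κ : Cardinal.{u}) (hκ : κ.IsRegular) :
    ∃ (G : Type u) (_ : Group G), IsExistentiallyClosed κ G ∧ #G = 2 ^ κ ∧ κ < #G ∧
      #(G ≃* G) = #G ∧ #(G ≃* G) < 2 ^ #G := by
  classical
  obtain ⟨ι, G, grp, hι, hG, ⟨S, hS, hsep⟩, hec⟩ := exists_group κ hκ
  have hκ0 : ℵ₀ ≤ κ := hκ.aleph0_le
  have hle : #(G ≃* G) ≤ #G := by
    have h1 : Injective (fun (φ : G ≃* G) (s : S) => φ s) := by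
      intro φ ψ h
      have h2 : ∀ s ∈ S, φ s = ψ s := fun s hs => congrFun h ⟨s, hs⟩
      have h3 : ∀ s ∈ S, ψ.symm (φ s) = s := fun s hs => by rw [h2 s hs, ψ.symm_apply_apply]
      ext g
      have h4 : g = ψ.symm (φ g) := by
        apply hsep
        intro s hs t ht
        have h5 : ψ.symm (φ (g * s * g⁻¹)) = ψ.symm (φ g) * s * (ψ.symm (φ g))⁻¹ := by
          simp only [map_mul, map_inv, h3 s hs]
        rw [← h5, ← h3 t ht]
        conv_lhs => rw [h3 t ht]
        have h6 : Injective (φ.trans ψ.symm) := (φ.trans ψ.symm).injective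
        rw [commute_iff_eq, commute_iff_eq, ← h6.eq_iff]
        simp only [MulEquiv.trans_apply, map_mul]
      have h7 := congrArg ψ h4
      rw [ψ.apply_symm_apply] at h7
      exact h7.symm
    refine (mk_le_of_injective h1).trans ?_
    rw [mk_arrow, lift_id, lift_id, hG, ← power_mul]
    apply power_le_power_left two_ne_zero
    exact mul_le_of_le hκ0 le_rfl hS
  have hge : #G ≤ #(G ≃* G) := by
    have h1 : Injective (MulAut.conj : G →* MulAut G) := by
      rw [injective_iff_map_eq_one]
      intro g hg
      apply hsep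
      intro s _ t _
      have h2 : g * s * g⁻¹ = s := by
        have := congrArg (fun f : MulAut G => f s) hg
        simpa using this
      rw [h2]
      simp
    exact mk_le_of_injective h1
  have heq : #(G ≃* G) = #G := le_antisymm hle hge
  refine ⟨G, grp, ?_, hG, ?_, heq, ?_⟩
  · intro X E N hEN ⟨K, grpK, i, hi, x, hx⟩
    have hE : #E < κ := (self_le_add_right _ _).trans_lt hEN
    have hN : #N < κ := (self_le_add_left _ _).trans_lt hEN
    choose rep hrep using fun w : Monoid.Coprod G (FreeGroup X) => exists_rep w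
    choose F hF hFrep using fun w : Monoid.Coprod G (FreeGroup X) => exists_support (rep w)
    -- the letters which occur
    let Y : Set (G ⊕ X) := ⋃ w : (E ∪ N : Set (Monoid.Coprod G (FreeGroup X))), F w.1
    have hY : #Y < κ := by
      rw [card_iUnion_lt_iff_forall_of_isRegular hκ]
      · intro w
        exact ((hF w.1).lt_aleph0).trans_le hκ0
      · exact (mk_union_le _ _).trans_lt hEN
    have hmem : ∀ w ∈ E ∪ N, rep w ∈ Subgroup.closure (FreeGroup.of '' Y) := by
      intro w hw
      exact Subgroup.closure_mono (Set.image_mono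
        (Set.subset_iUnion (fun w : (E ∪ N : Set (Monoid.Coprod G (FreeGroup X))) => F w.1)
          ⟨w, hw⟩)) (hFrep w)
    let C : Set G := Sum.inl ⁻¹' Y
    let V : Set X := Sum.inr ⁻¹' Y
    have hC : #C < κ := (mk_preimage_of_injective _ _ Sum.inl_injective).trans_lt hY
    have hV : #V < κ := (mk_preimage_of_injective _ _ Sum.inr_injective).trans_lt hY
    obtain ⟨H, grpH, r, hr, hCr, hsolve⟩ := hec C hC
    have hVι : #V ≤ #ι := by rw [hι]; exact hV.le
    obtain ⟨m⟩ := Cardinal.le_def _ _ |>.1 hVι
    have hneι : Nonempty ι := by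
      rw [← mk_ne_zero_iff, hι]
      exact (hκ0.trans_lt' aleph0_pos).ne'
    obtain ⟨v0⟩ := hneι
    -- renaming of letters
    let ρX : X → ι := fun v => if h : v ∈ V then m ⟨v, h⟩ else v0
    have hρX : ∀ v (h : v ∈ V), ρX v = m ⟨v, h⟩ := fun v h => dif_pos h
    let ρG : G → H := fun g => if h : g ∈ Set.range r then h.choose else 1
    have hρG : ∀ g ∈ C, r (ρG g) = g := by
      intro g hg
      have h : g ∈ Set.range r := hCr hg
      have h1 : ρG g = h.choose := dif_pos h
      rw [h1]
      exact h.choose_spec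
    let ρ : G ⊕ X → H ⊕ ι := Sum.map ρG ρX
    have hren : ∀ {L : Type u} [Group L] (f : G ⊕ X → L) (f' : H ⊕ ι → L),
        (∀ z ∈ Y, f' (ρ z) = f z) → ∀ w ∈ E ∪ N,
          FreeGroup.lift f' (FreeGroup.map ρ (rep w)) = FreeGroup.lift f (rep w) := by
      intro L _ f f' hf w hw
      have h1 : Set.EqOn ((FreeGroup.lift f').comp (FreeGroup.map ρ)) (FreeGroup.lift f)
          (Subgroup.closure (FreeGroup.of '' Y) : Set (FreeGroup (G ⊕ X))) := by
        apply MonoidHom.eqOn_closure
        rintro _ ⟨z, hz, rfl⟩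
        simp [hf z hz]
      exact h1 (hmem w hw)
    let x' : ι → K := Function.extend m (fun v : V => x v) 1
    have hx' : ∀ v (h : v ∈ V), x' (ρX v) = x v := by
      intro v h
      rw [hρX v h]
      exact m.injective.extend_apply _ _ _
    have hfK : ∀ z ∈ Y, Sum.elim (i.comp r) x' (ρ z) = Sum.elim i x z := by
      rintro (g | v) hz
      · change i (r (ρG g)) = i g
        rw [hρG g hz]
      · exact hx' v hz
    let E' : Set (FreeGroup (H ⊕ ι)) := (fun w => FreeGroup.map ρ (rep w)) '' E
    let N' : Set (FreeGroup (H ⊕ ι)) := (fun w => FreeGroup.map ρ (rep w)) '' N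
    obtain ⟨y, hy1, hy2⟩ := hsolve E' N' (mk_image_le.trans (hι ▸ hE.le))
      (mk_image_le.trans (hι ▸ hN.le)) ⟨⟨K, grpK, i.comp r, hi.comp hr⟩, x', by
        constructor
        · rintro _ ⟨w, hw, rfl⟩
          have h1 := hren (Sum.elim i x) (Sum.elim (i.comp r) x') hfK w (Or.inl hw)
          refine h1.trans ?_
          rw [← hrep w K i x]
          exact hx.1 w hw
        · rintro _ ⟨w, hw, rfl⟩ h
          have h1 := hren (Sum.elim i x) (Sum.elim (i.comp r) x') hfK w (Or.inr hw)
          apply hx.2 w hw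
          rw [hrep w K i x]
          exact h1.symm.trans h⟩
    have hfG : ∀ z ∈ Y, Sum.elim r y (ρ z) =
        Sum.elim (MonoidHom.id G) (fun v => y (ρX v)) z := by
      rintro (g | v) hz
      · exact hρG g hz
      · rfl
    refine ⟨fun v => y (ρX v), ?_, ?_⟩
    · intro w hw
      rw [hrep w G (MonoidHom.id G) (fun v => y (ρX v)),
        ← hren _ (Sum.elim r y) hfG w (Or.inl hw)]
      exact hy1 _ ⟨w, hw, rfl⟩
    · intro w hw h
      apply hy2 _ ⟨w, hw, rfl⟩
      rw [hrep w G (MonoidHom.id G) (fun v => y (ρX v)),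
        ← hren _ (Sum.elim r y) hfG w (Or.inr hw)] at h
      exact h
  · rw [hG]
    exact cantor κ
  · rw [heq]
    exact cantor _

end Pool.Agent.Results.MP_cb6149_al.FewAutomorphisms
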